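import Pool.Agent.TwoWalks.Final
import Pool.Agent.TwoWalks.Exist

/-! Asymptotic normality fails for two competing random walks under assumption (A). -/

open MeasureTheory ProbabilityTheory Filter Topology

namespace Pool.Agent.Results.MP_7a9606_pr.NoNormalLimit

open TwoWalks

/-- Measurability of the normalised count. -/
lemma measurable_normalisedCount {M r : ℕ} {Ω : Type} [MeasurableSpace Ω] {P : Measure Ω}
    {X : Bool → ℕ → Ω → VV M r} {ξ : ℕ → Ω → Bool} (hW : IsTwoWalks (GG M r) P X ξ) (i : Bool) :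
    Measurable (normalisedCount P X ξ i) := by
  unfold normalisedCount
  exact ((markCount_meas hW i).sub_const _).div_const _

/-- The normalised count is bounded. -/
lemma normalisedCount_bdd {M r : ℕ} {Ω : Type} [MeasurableSpace Ω] {P : Measure Ω}
    (X : Bool → ℕ → Ω → VV M r) (ξ : ℕ → Ω → Bool) (i : Bool) :
    ∃ B, ∀ ω, |normalisedCount P X ξ i ω| ≤ B := by
  refine ⟨(2 * ((M : ℝ) * r) + |∫ ω', markCount X ξ i ω' ∂P|) /
    Real.sqrt (variance (markCount X ξ i) P), ?_⟩
  intro ω
  unfold normalisedCount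
  rw [abs_div, abs_of_nonneg (Real.sqrt_nonneg _)]
  apply div_le_div_of_nonneg_right _ (Real.sqrt_nonneg _)
  exact (abs_sub _ _).trans (add_le_add (markCount_bdd X ξ i ω) le_rfl)

/-- **Asymptotic normality fails.** There is a sequence of finite connected vertex-transitive
simple graphs satisfying assumption (A) such that, whatever the probability spaces on which the
two walks and the coins are realised (and there are such spaces), for each `i` the normalised
count `(|A_i| - E|A_i|)/√Var(|A_i|)` does not converge in distribution to any normal law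
`N(μ, v)`, degenerate ones (`v = 0`) included. -/
theorem result :
    ∃ (V : ℕ → Type) (_ : ∀ n, Fintype (V n)) (G : ∀ n, SimpleGraph (V n)),
      AssumptionA V G ∧
      (∀ n, ∃ (Ω : Type) (_ : MeasurableSpace Ω) (P : Measure Ω) (X : Bool → ℕ → Ω → V n)
        (ξ : ℕ → Ω → Bool), IsProbabilityMeasure P ∧ IsTwoWalks (G n) P X ξ) ∧
      ∀ (Ω : ℕ → Type) [∀ n, MeasurableSpace (Ω n)] (P : ∀ n, Measure (Ω n))
        [∀ n, IsProbabilityMeasure (P n)] (X : ∀ n, Bool → ℕ → Ω n → V n)
        (ξ : ∀ n, ℕ → Ω n → Bool), (∀ n, IsTwoWalks (G n) (P n) (X n) (ξ n)) →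
        ∀ i : Bool, (∀ n, Measurable (normalisedCount (P n) (X n) (ξ n) i)) ∧
          ∀ (μ : ℝ) (v : NNReal), ¬ ∀ f : BoundedContinuousFunction ℝ ℝ,
            Tendsto (fun n => ∫ ω, f (normalisedCount (P n) (X n) (ξ n) i ω) ∂(P n)) atTop
              (𝓝 (∫ x, f x ∂(gaussianReal μ v))) := by
  refine ⟨Vn, inferInstance, Gn, assumptionA, ?_, ?_⟩
  · intro n
    exact exists_twoWalks (M_pos' (one_le_of_two (two_le_k n)))
      (r_pos' (one_le_of_two (two_le_k n)))
  · intro Ω _ P _ X ξ hW i
    refine ⟨fun n => measurable_normalisedCount (hW n) i, ?_⟩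
    intro μ v hconv
    have hn : ∀ k, 1 ≤ idx k := fun k => one_le_of_two (two_le_k k)
    have hM : ∀ k, 0 < idx k ^ 30 := fun k => M_pos' (hn k)
    have hr : ∀ k, 0 < idx k ^ 20 := fun k => r_pos' (hn k)
    let F : ∀ k, Ω k → ℝ := fun k ω => FF i (idx k) (HH (TT (idx k)) (PP (X k) (ξ k) (TT (idx k)) ω))
    have h1 : ∀ k, ∫ ω, F k ω ∂(P k) = 0 := by
      intro k
      rw [← FF_zero (hn k) i]
      exact func_integral (hM k) (hr k) (hW k) (FF i (idx k)) (TT (idx k))
    have h2 : ∀ k, ∫ ω, F k ω ^ 2 ∂(P k) = 1 := by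
      intro k
      rw [← FF_two (hn k) i]
      exact func_integral (hM k) (hr k) (hW k) (fun p => FF i (idx k) p ^ 2) (TT (idx k))
    have h4 : ∀ k, 3 + 1 / 32768 ≤ ∫ ω, F k ω ^ 4 ∂(P k) := by
      intro k
      refine (FF_four (hn k) (idx_ge k) i).trans (le_of_eq ?_)
      exact (func_integral (hM k) (hr k) (hW k) (fun p => FF i (idx k) p ^ 4) (TT (idx k))).symm
    have h6 : ∀ k, ∫ ω, F k ω ^ 6 ∂(P k) ≤ 3717184 ^ 3 := by
      intro k
      refine le_trans (le_of_eq ?_) (FF_six (hn k) i)
      exact func_integral (hM k) (hr k) (hW k) (fun p => FF i (idx k) p ^ 6) (TT (idx k))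
    have hC := C1_pos
    have hlim : Tendsto (fun k => 20 * (2 * ((10 : ℝ) ^ 22 + C1) / (idx k : ℝ))) atTop (𝓝 0) := by
      have a : Tendsto (fun k => 2 * ((10 : ℝ) ^ 22 + C1) / (idx k : ℝ)) atTop (𝓝 0) :=
        tendsto_const_nhds.div_atTop tendsto_k
      have := a.const_mul 20
      simpa using this
    have hXF : Tendsto (fun k => ∫ ω, (normalisedCount (P k) (X k) (ξ k) i ω - F k ω) ^ 2 ∂(P k))
        atTop (𝓝 0) := by
      refine tendsto_of_tendsto_of_tendsto_of_le_of_le' tendsto_const_nhds hlim ?_ ?_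
      · exact Eventually.of_forall fun k => integral_nonneg fun ω => sq_nonneg _
      · have h := tendsto_k.eventually (eventually_ge_atTop (32 * ((10 : ℝ) ^ 22 + C1)))
        filter_upwards [h] with k hk
        apply close_n (hn k) (hW k) i
        have hx : (0 : ℝ) < idx k := by
          have := x_ge (hn k); linarith
        rw [div_le_iff₀ hx]
        linarith
    exact not_normal P (fun k => normalisedCount (P k) (X k) (ξ k) i) F
      (fun k => measurable_normalisedCount (hW k) i)
      (fun k => func_meas (hW k) (FF i (idx k)) (TT (idx k)))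
      (fun k => normalisedCount_bdd (X k) (ξ k) i)
      (fun k => func_bdd (FF i (idx k)) (TT (idx k)))
      (by norm_num : (0 : ℝ) < 1 / 32768) h1 h2 h4 h6 hXF μ v hconv

end Pool.Agent.Results.MP_7a9606_pr.NoNormalLimit
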